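import Mathlib

namespace Pool.Agent.Results.MP_ca8ef0_co.NotUniform

open Finset

/-- The halfspace of the cube with coefficients `a₀, a`. -/
def half (n : ℕ) (a₀ : ℝ) (a : Fin n → ℝ) : Set (Fin n → ℤ) :=
  {x | (∀ i, x i = 1 ∨ x i = -1) ∧ 0 ≤ a₀ + ∑ i, a i * (x i : ℝ)}

def wt (m n : ℕ) (i : Fin n) : ℝ := if i.val < m then 1 else m

lemma mem_iff (m n : ℕ) (x : Fin n → ℤ) :
    x ∈ half n (2 * m - ∑ i, wt m n i) (wt m n) ↔
      (∀ i, x i = 1 ∨ x i = -1) ∧ ∑ i, wt m n i * (1 - (x i : ℝ)) ≤ 2 * m := by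
  have h : ∑ i, wt m n i * (1 - (x i : ℝ)) = ∑ i, wt m n i - ∑ i, wt m n i * (x i : ℝ) := by
    rw [← Finset.sum_sub_distrib]
    exact Finset.sum_congr rfl fun i _ => by ring
  unfold half
  rw [Set.mem_ofPred_eq, h]
  constructor
  · rintro ⟨h1, h2⟩
    exact ⟨h1, by linarith⟩
  · rintro ⟨h1, h2⟩
    exact ⟨h1, by linarith⟩

lemma card_light (m N : ℕ) : (univ.filter fun i : Fin (m + N) => i.val < m).card = m := by
  have : (univ.filter fun i : Fin (m + N) => i.val < m) = univ.map (Fin.castAddEmb N) := by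
    ext i
    simp only [mem_filter, mem_univ, true_and, mem_map, Fin.castAddEmb_apply]
    constructor
    · intro h
      exact ⟨⟨i.val, h⟩, Fin.ext rfl⟩
    · rintro ⟨j, rfl⟩
      exact j.2
  rw [this, card_map, card_univ, Fintype.card_fin]

theorem result (C : ℝ) (_hC : 1 ≤ C) :
    ∃ (n : ℕ) (a₀ : ℝ) (a : Fin n → ℝ) (x y : half n a₀ a), 1 ≤ n ∧
      ¬ ∃ f : half n a₀ a ≃ half n a₀ a, f x = y ∧ f y = x ∧
        ∀ z w : half n a₀ a, z ≠ w →
          1 / C ≤ (hammingDist (f z).1 (f w).1 : ℝ) / (hammingDist z.1 w.1 : ℝ) ∧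
          (hammingDist (f z).1 (f w).1 : ℝ) / (hammingDist z.1 w.1 : ℝ) ≤ C := by
  obtain ⟨m, hm⟩ := exists_nat_gt C
  have hm0 : (0 : ℝ) ≤ m := Nat.cast_nonneg m
  set N := 2 ^ m + 1 with hN
  have hw0 : ∀ i, 0 ≤ wt m (m + N) i := fun i => by
    unfold wt; split_ifs <;> positivity
  have hx : (fun _ => 1 : Fin (m + N) → ℤ) ∈
      half (m + N) (2 * m - ∑ i, wt m (m + N) i) (wt m (m + N)) := by
    rw [mem_iff]
    refine ⟨fun _ => Or.inl rfl, ?_⟩
    simp
  have hy : (fun i => if i.val < m then -1 else 1 : Fin (m + N) → ℤ) ∈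
      half (m + N) (2 * m - ∑ i, wt m (m + N) i) (wt m (m + N)) := by
    rw [mem_iff]
    refine ⟨fun i => by split_ifs <;> simp, ?_⟩
    have : ∀ i : Fin (m + N), wt m (m + N) i *
        (1 - (((if i.val < m then -1 else 1 : ℤ) : ℤ) : ℝ)) = if i.val < m then 2 else 0 := by
      intro i
      unfold wt
      split_ifs <;> norm_num
    rw [Finset.sum_congr rfl fun i _ => this i, ← Finset.sum_filter, Finset.sum_const,
      card_light]
    simp [mul_comm]
  have hz : ∀ j : Fin N, (Function.update (fun _ => 1) (Fin.natAdd m j) (-1) :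
      Fin (m + N) → ℤ) ∈ half (m + N) (2 * m - ∑ i, wt m (m + N) i) (wt m (m + N)) := by
    intro j
    rw [mem_iff]
    refine ⟨fun i => ?_, ?_⟩
    · by_cases h : i = Fin.natAdd m j
      · subst h; simp
      · simp [Function.update_of_ne h]
    · rw [Finset.sum_eq_single (Fin.natAdd m j)]
      · simp only [Function.update_self, wt, Fin.val_natAdd]
        rw [if_neg (by omega)]
        norm_num
        linarith
      · intro i _ h
        simp [Function.update_of_ne h]
      · simp
  refine ⟨m + N, 2 * m - ∑ i, wt m (m + N) i, wt m (m + N), ⟨_, hx⟩, ⟨_, hy⟩,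
    le_add_left (Nat.le_add_left 1 _), ?_⟩
  rintro ⟨f, hf, -, hd⟩
  have hne : ∀ j : Fin N, (⟨_, hz j⟩ : half (m + N) _ _) ≠ ⟨_, hx⟩ := by
    intro j h
    have := congrFun (congrArg Subtype.val h) (Fin.natAdd m j)
    simp at this
  have hd1 : ∀ j : Fin N, hammingDist (Function.update (fun _ => 1) (Fin.natAdd m j) (-1) :
      Fin (m + N) → ℤ) (fun _ => 1) = 1 := by
    intro j
    unfold hammingDist
    rw [card_eq_one]
    refine ⟨Fin.natAdd m j, ?_⟩
    ext i
    by_cases h : i = Fin.natAdd m j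
    · subst h; simp
    · simp [h]
  have hheavy : ∀ j : Fin N, ∀ i : Fin (m + N), ¬ i.val < m → (f ⟨_, hz j⟩).1 i = 1 := by
    intro j i hi
    have h1 := (hd _ _ (hne j)).2
    rw [hf] at h1
    dsimp only at h1
    rw [hd1 j] at h1
    obtain ⟨hpm, hs⟩ := (mem_iff m (m + N) _).1 (f ⟨_, hz j⟩).2
    generalize (f ⟨_, hz j⟩).1 = w at h1 hpm hs
    by_contra hne1
    have hi1 : w i = -1 := (hpm i).resolve_left hne1
    have hnn : ∀ k, 0 ≤ wt m (m + N) k * (1 - (w k : ℝ)) := fun k => by
      refine mul_nonneg (hw0 k) ?_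
      rcases hpm k with h | h <;> rw [h] <;> norm_num
    have hl : ∀ k : Fin (m + N), k.val < m → w k = 1 := by
      intro k hk
      by_contra hk1
      have hk2 : w k = -1 := (hpm k).resolve_left hk1
      have hik : i ≠ k := fun h => hi (h ▸ hk)
      have h2 : ∑ t ∈ ({i, k} : Finset _), wt m (m + N) t * (1 - (w t : ℝ)) ≤
          ∑ t, wt m (m + N) t * (1 - (w t : ℝ)) :=
        Finset.sum_le_sum_of_subset_of_nonneg (subset_univ _) fun t _ _ => hnn t
      have h5 := h2.trans hs
      rw [Finset.sum_pair hik, hi1, hk2] at h5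
      unfold wt at h5
      rw [if_neg hi, if_pos hk] at h5
      norm_num at h5
      linarith
    have h3 : (univ.filter fun i : Fin (m + N) => i.val < m).card ≤
        hammingDist w (fun i => if i.val < m then -1 else 1) := by
      unfold hammingDist
      refine card_le_card fun k hk => ?_
      have hk' := (mem_filter.1 hk).2
      simp only [mem_filter, mem_univ, true_and]
      rw [hl k hk', if_pos hk']
      norm_num
    rw [card_light] at h3
    have h4 : (m : ℝ) ≤ hammingDist w (fun i => if i.val < m then -1 else 1) := by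
      exact_mod_cast h3
    norm_num at h1
    linarith
  let g : Fin N → (Fin m → Bool) := fun j k => decide ((f ⟨_, hz j⟩).1 (Fin.castAdd N k) = 1)
  have hg : Function.Injective g := by
    intro j j' h
    have h1 : f ⟨_, hz j⟩ = f ⟨_, hz j'⟩ := by
      apply Subtype.ext
      funext i
      by_cases hi : i.val < m
      · have h2 := congrFun h ⟨i.val, hi⟩
        have h3 : Fin.castAdd N (⟨i.val, hi⟩ : Fin m) = i := Fin.ext rfl
        simp only [g, h3, decide_eq_decide] at h2
        have ha := ((mem_iff m (m + N) _).1 (f ⟨_, hz j⟩).2).1 i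
        have hb := ((mem_iff m (m + N) _).1 (f ⟨_, hz j'⟩).2).1 i
        omega
      · rw [hheavy j i hi, hheavy j' i hi]
    have h2 := congrFun (congrArg Subtype.val (f.injective h1)) (Fin.natAdd m j)
    by_contra hjj
    have h3 : Fin.natAdd m j ≠ Fin.natAdd m j' := fun h => hjj (by simpa using h)
    simp [Function.update_of_ne h3] at h2
  have := Fintype.card_le_of_injective g hg
  simp only [Fintype.card_fin, Fintype.card_fun, Fintype.card_bool] at this
  omega

end Pool.Agent.Results.MP_ca8ef0_co.NotUniform
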